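import Mathlib
import Pool.Agent.Lib.MP_f2d8fc_an.Defs

/-!
# Fixed points of the correlation map all of whose rows have the same variance: definitions
-/

open Matrix

namespace Pool.Agent.MPf2d8fcHom

open Pool.Agent.MPf2d8fc

variable {n : ℕ}

/-- All rows of `A` have the same variance. -/
def EqualVariance (A : Matrix (Fin n) (Fin n) ℝ) : Prop :=
  ∀ i j, ∑ k, (A i k - mean (A i)) ^ 2 = ∑ k, (A j k - mean (A j)) ^ 2

/-- `F` is an orthogonal projection with `F 1 = 0` and `F φ = 0`, where `φ` is the diagonal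
of `F`. -/
structure Dual (F : Matrix (Fin n) (Fin n) ℝ) : Prop where
  /-- `F` is symmetric -/
  symm : Fᵀ = F
  /-- `F` is idempotent -/
  idem : F * F = F
  /-- `F 1 = 0` -/
  row : ∀ i, ∑ j, F i j = 0
  /-- `F φ = 0` -/
  diag : ∀ i, ∑ j, F i j * F j j = 0

/-- The number `κ = (1/4) ∑ F_ii ^ 2 - (tr F + 2) ^ 2 / (4 n)`. -/
noncomputable def kap (F : Matrix (Fin n) (Fin n) ℝ) : ℝ :=
  (∑ i, F i i ^ 2) / 4 - (F.trace + 2) ^ 2 / (4 * n)

/-- The matrix with the entries `(δ_ij - F_ij + (F_ii + F_jj) / 2 + κ) / (1 + κ)`. -/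
noncomputable def hom (F : Matrix (Fin n) (Fin n) ℝ) : Matrix (Fin n) (Fin n) ℝ :=
  Matrix.of fun i j =>
    ((if i = j then 1 else 0) - F i j + (F i i + F j j) / 2 + kap F) / (1 + kap F)

end Pool.Agent.MPf2d8fcHom
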