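import Mathlib

/-!
# The rank of an idempotent matrix is its trace
-/

open Matrix

namespace Pool.Agent.MPf2d8fcHom

variable {n : ℕ}

theorem rank_eq_trace {M : Matrix (Fin n) (Fin n) ℝ} (h : M * M = M) :
    (M.rank : ℝ) = M.trace := by
  have h1 : IsIdempotentElem (Matrix.toLin' M) := by
    unfold IsIdempotentElem
    rw [Module.End.mul_eq_comp, ← Matrix.toLin'_mul, h]
  have h2 := (LinearMap.IsIdempotentElem.isProj_range (Matrix.toLin' M) h1).trace
  rw [Matrix.trace_toLin'_eq] at h2
  rw [h2, Matrix.rank]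
  rfl

end Pool.Agent.MPf2d8fcHom
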