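import Mathlib
import Pool.Agent.Lib.MP_f2d8fc_an.Bridge
import Pool.Agent.Lib.MP_f2d8fc_an_HOM.Defs
import Pool.Agent.Lib.MP_f2d8fc_an_HOM.Rank

/-!
# The matrices `hom F` are fixed points
-/

open Matrix

namespace Pool.Agent.MPf2d8fcHom

open Pool.Agent.MPf2d8fc

variable {n : ℕ} {F : Matrix (Fin n) (Fin n) ℝ}

/-- `(1 + κ)` times `hom F`. -/
noncomputable def bb (F : Matrix (Fin n) (Fin n) ℝ) : Matrix (Fin n) (Fin n) ℝ :=
  Matrix.of fun i j => (if i = j then 1 else 0) - F i j + (F i i + F j j) / 2 + kap F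

theorem bb_apply (F : Matrix (Fin n) (Fin n) ℝ) (i j : Fin n) :
    bb F i j = (if i = j then 1 else 0) - F i j + (F i i + F j j) / 2 + kap F := rfl

theorem hom_apply (F : Matrix (Fin n) (Fin n) ℝ) (i j : Fin n) :
    hom F i j = bb F i j / (1 + kap F) := rfl

theorem Dual.symm' (h : Dual F) (i j : Fin n) : F i j = F j i := by
  have := congrFun (congrFun h.symm j) i
  simpa using this

theorem Dual.idem' (h : Dual F) (i j : Fin n) : ∑ k, F i k * F k j = F i j := by
  rw [← Matrix.mul_apply, h.idem]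

theorem Dual.bb_symm (h : Dual F) : (bb F)ᵀ = bb F := by
  ext i j
  rw [transpose_apply, bb_apply, bb_apply, h.symm' j i]
  by_cases hij : i = j
  · subst hij; rfl
  · rw [if_neg hij, if_neg (Ne.symm hij)]; ring

theorem trace_eq (F : Matrix (Fin n) (Fin n) ℝ) : F.trace = ∑ i, F i i := rfl

theorem Dual.sum_bb (h : Dual F) (j : Fin n) :
    ∑ k, bb F k j = 1 + F.trace / 2 + n * (F j j / 2 + kap F) := by
  have e : ∀ k, bb F k j = (if k = j then 1 else 0) - F j k + F k k / 2
      + (F j j / 2 + kap F) := by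
    intro k; rw [bb_apply, h.symm' k j]; ring
  rw [Finset.sum_congr rfl fun k _ => e k, Finset.sum_add_distrib, Finset.sum_add_distrib,
    Finset.sum_sub_distrib, Finset.sum_ite_eq' , if_pos (Finset.mem_univ j), h.row j,
    ← Finset.sum_div, Finset.sum_const, Finset.card_univ, Fintype.card_fin, nsmul_eq_mul,
    ← trace_eq]
  ring

theorem Dual.F_bb (h : Dual F) (i j : Fin n) : ∑ k, F i k * bb F k j = 0 := by
  have e : ∀ k, F i k * bb F k j = (if k = j then F i k else 0) - F i k * F k j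
      + F i k * F k k / 2 + F i k * (F j j / 2 + kap F) := by
    intro k; rw [bb_apply]; split_ifs <;> ring
  rw [Finset.sum_congr rfl fun k _ => e k, Finset.sum_add_distrib, Finset.sum_add_distrib,
    Finset.sum_sub_distrib, Finset.sum_ite_eq' , if_pos (Finset.mem_univ j), h.idem',
    ← Finset.sum_div, h.diag, ← Finset.sum_mul, h.row]
  ring

theorem Dual.phi_bb (h : Dual F) (j : Fin n) : ∑ k, F k k * bb F k j
    = F j j + ((∑ k, F k k ^ 2) + F j j * F.trace) / 2 + kap F * F.trace := by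
  have e : ∀ k, F k k * bb F k j = (if k = j then F k k else 0) - F j k * F k k
      + F k k ^ 2 / 2 + F k k * (F j j / 2 + kap F) := by
    intro k; rw [bb_apply, h.symm' k j]; split_ifs <;> ring
  rw [Finset.sum_congr rfl fun k _ => e k, Finset.sum_add_distrib, Finset.sum_add_distrib,
    Finset.sum_sub_distrib, Finset.sum_ite_eq' , if_pos (Finset.mem_univ j), h.diag,
    ← Finset.sum_div, ← Finset.sum_mul, ← trace_eq]
  ring

theorem Dual.bb_Hc (h : Dual F) (hn : 0 < n) (i k : Fin n) : (bb F * Hc n) i k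
    = (if i = k then 1 else 0) - F i k + F k k / 2 - (F.trace + 2) / (2 * n) := by
  have hn' : (n : ℝ) ≠ 0 := by exact_mod_cast hn.ne'
  have hm : mean (bb F i) = (1 + F.trace / 2 + n * (F i i / 2 + kap F)) / n := by
    rw [mean, ← h.sum_bb i]
    congr 1
    refine Finset.sum_congr rfl fun k _ => ?_
    have := congrFun (congrFun h.bb_symm k) i
    simpa using this
  rw [mul_Hc_apply, hm, bb_apply]
  field_simp
  ring

theorem Dual.bb_eqn (h : Dual F) (hn : 0 < n) : bb F * Hc n * bb F = bb F := by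
  have hn' : (n : ℝ) ≠ 0 := by exact_mod_cast hn.ne'
  ext i j
  rw [mul_apply]
  have e : ∀ k, (bb F * Hc n) i k * bb F k j = (if i = k then bb F k j else 0)
      - F i k * bb F k j + F k k * bb F k j / 2 - (F.trace + 2) / (2 * n) * bb F k j := by
    intro k; rw [h.bb_Hc hn]; split_ifs <;> ring
  rw [Finset.sum_congr rfl fun k _ => e k, Finset.sum_sub_distrib, Finset.sum_add_distrib,
    Finset.sum_sub_distrib, Finset.sum_ite_eq, if_pos (Finset.mem_univ i), h.F_bb,
    ← Finset.sum_div, h.phi_bb, ← Finset.mul_sum, h.sum_bb]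
  have hk : kap F = (∑ i, F i i ^ 2) / 4 - (F.trace + 2) ^ 2 / (4 * n) := rfl
  have hq : (∑ i, F i i ^ 2) = 4 * kap F + (F.trace + 2) ^ 2 / n := by
    rw [hk]; field_simp; ring
  rw [hq]
  field_simp
  ring

/-- A symmetric idempotent matrix with trace `0` is `0`. -/
theorem eq_zero_of_trace {M : Matrix (Fin n) (Fin n) ℝ} (hs : Mᵀ = M) (hM : M * M = M)
    (ht : M.trace = 0) : M = 0 := by
  have hs' : ∀ i k, M k i = M i k := by
    intro i k
    have := congrFun (congrFun hs i) k
    simpa using this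
  have e : ∑ i, ∑ k, M i k ^ 2 = 0 := by
    rw [← ht, trace_eq]
    refine Finset.sum_congr rfl fun i _ => ?_
    have : M i i = ∑ k, M i k * M k i := by rw [← mul_apply, hM]
    rw [this]
    exact Finset.sum_congr rfl fun k _ => by rw [hs' i k, pow_two]
  ext i k
  have h1 := (Finset.sum_eq_zero_iff_of_nonneg fun i _ =>
    Finset.sum_nonneg fun k _ => sq_nonneg (M i k)).1 e i (Finset.mem_univ i)
  have h2 := (Finset.sum_eq_zero_iff_of_nonneg fun k _ => sq_nonneg (M i k)).1 h1 k
    (Finset.mem_univ k)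
  rw [Matrix.zero_apply]
  exact pow_eq_zero_iff (two_ne_zero) |>.1 h2

theorem Dual.trace_eq_rank (h : Dual F) : F.trace = F.rank := (rank_eq_trace h.idem).symm

theorem Dual.kap_pos (h : Dual F) (hn : 0 < n) (hr : F.rank + 1 < n) : 0 < 1 + kap F := by
  have hn' : (0 : ℝ) < n := by exact_mod_cast hn
  have hr' : (F.rank : ℝ) + 1 < n := by exact_mod_cast hr
  have h1 : (∑ i, F i i) ^ 2 ≤ n * ∑ i, F i i ^ 2 := by
    have := sq_sum_le_card_mul_sum_sq (s := (Finset.univ : Finset (Fin n))) (f := fun i => F i i)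
    simpa using this
  rw [← trace_eq, h.trace_eq_rank] at h1
  have hk : kap F = (∑ i, F i i ^ 2) / 4 - (F.trace + 2) ^ 2 / (4 * n) := rfl
  rw [hk, h.trace_eq_rank]
  have h2 : 0 < (n : ℝ) * (1 + ((∑ i, F i i ^ 2) / 4 - ((F.rank : ℝ) + 2) ^ 2 / (4 * n))) := by
    have e : (n : ℝ) * (1 + ((∑ i, F i i ^ 2) / 4 - ((F.rank : ℝ) + 2) ^ 2 / (4 * n)))
        = n + n * (∑ i, F i i ^ 2) / 4 - ((F.rank : ℝ) + 2) ^ 2 / 4 := by
      field_simp
      ring
    rw [e]
    nlinarith
  exact (mul_pos_iff_of_pos_left hn').1 h2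

theorem hom_eq (F : Matrix (Fin n) (Fin n) ℝ) : hom F = (1 + kap F)⁻¹ • bb F := by
  ext i j
  rw [hom_apply, Matrix.smul_apply, smul_eq_mul, div_eq_inv_mul]

theorem Hc_apply (i j : Fin n) : Hc n i j = (if i = j then 1 else 0) - 1 / n := by
  rw [Hc, Matrix.sub_apply, Matrix.smul_apply, vecMulVec_apply, Matrix.one_apply, smul_eq_mul,
    mul_one, mul_one, one_div]

theorem Hc_row (hn : 0 < n) (i : Fin n) : ∑ j, Hc n i j = 0 := by
  have hn' : (n : ℝ) ≠ 0 := by exact_mod_cast hn.ne'
  rw [Finset.sum_congr rfl fun j _ => Hc_apply i j, Finset.sum_sub_distrib, Finset.sum_ite_eq,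
    if_pos (Finset.mem_univ i), Finset.sum_const, Finset.card_univ, Fintype.card_fin,
    nsmul_eq_mul]
  field_simp
  ring

theorem Hc_one (hn : 0 < n) : Hc n *ᵥ (fun _ => 1) = 0 := by
  rw [mulVec_one_eq]
  ext i
  exact Hc_row hn i

theorem Hc_idem (hn : 0 < n) : Hc n * Hc n = Hc n := mul_Hc (Hc_one hn)

theorem Dual.bb_psd (h : Dual F) (hn : 0 < n) : (bb F).PosSemidef := by
  have h1 : bb F = (bb F * Hc n) * (bb F * Hc n)ᴴ := by
    rw [conjTranspose_eq_transpose_of_trivial, transpose_mul, h.bb_symm, Hc_T]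
    have hH := Hc_idem hn
    calc bb F = bb F * Hc n * bb F := (h.bb_eqn hn).symm
      _ = bb F * (Hc n * Hc n) * bb F := by rw [hH]
      _ = bb F * Hc n * (Hc n * bb F) := by simp only [Matrix.mul_assoc]
  rw [h1]
  exact posSemidef_self_mul_conjTranspose _

theorem Dual.mem_FixC (h : Dual F) (hn : 0 < n) (hr : F.rank + 1 < n) :
    hom F ∈ FixC n ∧ EqualVariance (hom F) := by
  have hk := h.kap_pos hn hr
  have hone : ∀ i, hom F i i = 1 := by
    intro i
    rw [hom_apply, bb_apply, if_pos rfl]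
    field_simp
    ring
  have heq : hom F * Hc n * hom F = (1 + kap F)⁻¹ • hom F := by
    rw [hom_eq, Matrix.smul_mul, Matrix.smul_mul, Matrix.mul_smul, h.bb_eqn hn]
  have hT : (hom F)ᵀ = hom F := by rw [hom_eq, transpose_smul, h.bb_symm]
  refine ⟨(mem_FixC_iff hn _).2 ⟨?_, hone, fun _ => Real.sqrt (1 + kap F)⁻¹, fun _ =>
    Real.sqrt_pos.2 (inv_pos.2 hk), ?_⟩, ?_⟩
  · rw [hom_eq]
    exact (h.bb_psd hn).smul (inv_pos.2 hk).le
  · rw [heq]
    ext i j
    rw [mul_diagonal, diagonal_mul, Matrix.smul_apply, smul_eq_mul]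
    have := Real.mul_self_sqrt (inv_pos.2 hk).le
    linear_combination (-hom F i j) * this
  · intro i j
    have hg : ∀ i, ∑ k, (hom F i k - mean (hom F i)) ^ 2 = (1 + kap F)⁻¹ := by
      intro i
      have := gram_apply hn hT i i
      rw [heq, Matrix.smul_apply, hone i, smul_eq_mul, mul_one] at this
      rw [this]
      exact Finset.sum_congr rfl fun k _ => by ring
    rw [hg i, hg j]

/-- The rank of `hom F` is `n - 1 - rank F`. -/
theorem Dual.rank_hom (h : Dual F) (hn : 0 < n) (hr : F.rank + 1 < n) :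
    (hom F).rank + F.rank + 1 = n := by
  have hk := h.kap_pos hn hr
  have hn' : (n : ℝ) ≠ 0 := by exact_mod_cast hn.ne'
  have h1 : (bb F * Hc n) * (bb F * Hc n) = bb F * Hc n := by
    rw [← Matrix.mul_assoc, h.bb_eqn hn]
  have h2 : ((bb F * Hc n).rank : ℝ) = n - 1 - F.rank := by
    rw [rank_eq_trace h1, trace_eq]
    have e : ∀ i, (bb F * Hc n) i i = 1 - F i i / 2 - (F.trace + 2) / (2 * n) := by
      intro i
      rw [h.bb_Hc hn, if_pos rfl]
      ring
    rw [Finset.sum_congr rfl fun i _ => e i, Finset.sum_sub_distrib, Finset.sum_sub_distrib,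
      ← Finset.sum_div, ← trace_eq, Finset.sum_const, Finset.sum_const, Finset.card_univ,
      Fintype.card_fin, nsmul_eq_mul, nsmul_eq_mul, h.trace_eq_rank]
    field_simp
    ring
  have h3 : (bb F).rank = (bb F * Hc n).rank := by
    apply le_antisymm
    · conv_lhs => rw [← h.bb_eqn hn]
      exact Matrix.rank_mul_le_left _ _
    · exact Matrix.rank_mul_le_left _ _
  have h4 : (hom F).rank = (bb F).rank := by
    apply le_antisymm
    · have e1 : hom F = ((1 + kap F)⁻¹ • (1 : Matrix (Fin n) (Fin n) ℝ)) * bb F := by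
        rw [Matrix.smul_mul, Matrix.one_mul, hom_eq]
      rw [e1]
      exact Matrix.rank_mul_le_right _ _
    · have e2 : bb F = ((1 + kap F) • (1 : Matrix (Fin n) (Fin n) ℝ)) * hom F := by
        rw [hom_eq, Matrix.smul_mul, Matrix.one_mul, smul_smul, mul_inv_cancel₀ hk.ne',
          one_smul]
      conv_lhs => rw [e2]
      exact Matrix.rank_mul_le_right _ _
  have h5 : (((hom F).rank + F.rank + 1 : ℕ) : ℝ) = n := by
    push_cast
    rw [h4, h3, h2]
    ring
  exact_mod_cast h5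

end Pool.Agent.MPf2d8fcHom
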