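import Mathlib
import Pool.Agent.Lib.MP_f2d8fc_an_HOM.Fwd

/-!
# Every fixed point with rows of equal variance is some `hom F`
-/

open Matrix

namespace Pool.Agent.MPf2d8fcHom

open Pool.Agent.MPf2d8fc

variable {n : ℕ}

theorem Hc_mul_apply (M : Matrix (Fin n) (Fin n) ℝ) (i j : Fin n) :
    (Hc n * M) i j = M i j - (∑ k, M k j) / n := by
  have h1 : (Hc n * M) = (Mᵀ * Hc n)ᵀ := by
    rw [transpose_mul, Hc_T, transpose_transpose]
  rw [h1, transpose_apply, mul_Hc_apply, transpose_apply, mean]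
  rfl

/-- The structure of the positive solutions of `B H B = B` with constant diagonal. -/
theorem exists_dual_of_eqn (hn : 0 < n) {B : Matrix (Fin n) (Fin n) ℝ} (hT : Bᵀ = B)
    (hB : B * Hc n * B = B) {β : ℝ} (hβ : 0 < β) (hd : ∀ i, B i i = β) :
    ∃ F : Matrix (Fin n) (Fin n) ℝ, Dual F ∧ F.rank + 1 < n ∧ B = bb F ∧ β = 1 + kap F := by
  have hn' : (n : ℝ) ≠ 0 := by exact_mod_cast hn.ne'
  have hHH := Hc_idem hn
  set M : Matrix (Fin n) (Fin n) ℝ := B * Hc n with hM
  set R : Matrix (Fin n) (Fin n) ℝ := Hc n * M with hR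
  have hRT : Rᵀ = R := by
    rw [hR, hM, transpose_mul, transpose_mul, Hc_T, hT, Matrix.mul_assoc]
  have hRR : R * R = R := by
    calc R * R = Hc n * (B * (Hc n * Hc n) * B) * Hc n := by
          rw [hR, hM]; simp only [Matrix.mul_assoc]
      _ = Hc n * (B * Hc n * B) * Hc n := by rw [hHH]
      _ = R := by rw [hB, hR, hM, Matrix.mul_assoc]
  have hHR : Hc n * R = R := by rw [hR, ← Matrix.mul_assoc, hHH]
  have hRH : R * Hc n = R := by
    have := congrArg Matrix.transpose hHR
    rwa [transpose_mul, hRT, Hc_T] at this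
  have hRone : R *ᵥ (fun _ => (1 : ℝ)) = 0 := by
    rw [← hRH, ← mulVec_mulVec, Hc_one hn, mulVec_zero]
  have hRrow : ∀ i, ∑ j, R i j = 0 := by
    intro i
    have := congrFun hRone i
    rw [mulVec_one_eq] at this
    exact this
  have hRs : ∀ i j, R i j = R j i := by
    intro i j
    have := congrFun (congrFun hRT j) i
    simpa using this
  have hMM : M * Mᵀ = B := by
    calc M * Mᵀ = B * (Hc n * Hc n) * B := by
          rw [hM, transpose_mul, Hc_T, hT]; simp only [Matrix.mul_assoc]
      _ = B := by rw [hHH, hB]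
  set g : Fin n → ℝ := fun j => (∑ k, M k j) / n with hg
  have hMR : ∀ i k, M i k = R i k + g k := by
    intro i k
    rw [hR, Hc_mul_apply, hg]
    ring
  set h : Fin n → ℝ := fun i => ∑ k, R i k * g k with hh
  set s : ℝ := ∑ k, g k ^ 2 with hs
  have hBe : ∀ i j, B i j = R i j + h i + h j + s := by
    intro i j
    have e1 : B i j = ∑ k, M i k * M j k := by
      rw [← hMM, mul_apply]
      rfl
    have e2 : ∀ k, M i k * M j k = R i k * R k j + R i k * g k + R j k * g k + g k ^ 2 := by
      intro k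
      rw [hMR, hMR, hRs k j]
      ring
    rw [e1, Finset.sum_congr rfl fun k _ => e2 k, Finset.sum_add_distrib,
      Finset.sum_add_distrib, Finset.sum_add_distrib, ← Matrix.mul_apply, hRR]
  have hRcol : ∀ j, ∑ i, R i j = 0 := by
    intro j
    rw [← hRrow j]
    exact Finset.sum_congr rfl fun i _ => hRs i j
  have hhsum : ∑ i, h i = 0 := by
    rw [hh, Finset.sum_comm]
    refine Finset.sum_eq_zero fun k _ => ?_
    rw [← Finset.sum_mul, hRcol, zero_mul]
  have hgh : ∀ j, g j = h j := by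
    intro j
    have e1 : M j j = B j j - mean (B j) := by rw [hM, mul_Hc_apply]
    have e2 : mean (B j) = h j + s := by
      rw [mean, Finset.sum_congr rfl fun k _ => hBe j k, Finset.sum_add_distrib,
        Finset.sum_add_distrib, Finset.sum_add_distrib, hRrow, hhsum, Finset.sum_const,
        Finset.sum_const, Finset.card_univ, Fintype.card_fin, nsmul_eq_mul, nsmul_eq_mul]
      field_simp
      ring
    rw [e2, hMR, hBe] at e1
    linarith
  set F : Matrix (Fin n) (Fin n) ℝ := Hc n - R with hF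
  have hFe : ∀ i j, F i j = (if i = j then 1 else 0) - 1 / n - R i j := by
    intro i j
    rw [hF, Matrix.sub_apply, Hc_apply]
  have hFT : Fᵀ = F := by rw [hF, transpose_sub, Hc_T, hRT]
  have hFF : F * F = F := by
    rw [hF, Matrix.sub_mul, Matrix.mul_sub, Matrix.mul_sub, hHH, hHR, hRH, hRR]
    simp
  have hFrow : ∀ i, ∑ j, F i j = 0 := by
    intro i
    have e : ∀ j, F i j = Hc n i j - R i j := fun j => by rw [hF, Matrix.sub_apply]
    rw [Finset.sum_congr rfl fun j _ => e j, Finset.sum_sub_distrib, Hc_row hn, hRrow, sub_zero]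
  have hFR : F * R = 0 := by
    rw [hF, Matrix.sub_mul, hHR, hRR, sub_self]
  have hFh : ∀ i, ∑ j, F i j * h j = 0 := by
    intro i
    have e1 : ∀ j, F i j * h j = ∑ k, F i j * R j k * g k := by
      intro j
      rw [hh, Finset.mul_sum]
      exact Finset.sum_congr rfl fun k _ => by ring
    rw [Finset.sum_congr rfl fun j _ => e1 j, Finset.sum_comm]
    refine Finset.sum_eq_zero fun k _ => ?_
    rw [← Finset.sum_mul, ← Matrix.mul_apply, hFR, Matrix.zero_apply, zero_mul]
  have hdiag : ∀ i, h i = (β - s - 1 + 1 / n + F i i) / 2 := by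
    intro i
    have := hd i
    rw [hBe] at this
    rw [hFe, if_pos rfl]
    linarith
  have hτ : β - s - 1 + 1 / n = - F.trace / n := by
    have e := hhsum
    rw [Finset.sum_congr rfl fun i _ => hdiag i, ← Finset.sum_div, Finset.sum_add_distrib,
      Finset.sum_const, Finset.card_univ, Fintype.card_fin, nsmul_eq_mul, ← trace_eq] at e
    have e' : (n : ℝ) * (β - s - 1 + 1 / n) + F.trace = 0 := by linarith
    field_simp
    field_simp at e'
    linarith
  have hhF : ∀ i, h i = (F i i - F.trace / n) / 2 := by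
    intro i
    rw [hdiag, hτ]
    ring
  have hsF : s = ((∑ i, F i i ^ 2) - F.trace ^ 2 / n) / 4 := by
    have e : ∀ k, g k ^ 2
        = F k k ^ 2 / 4 - F k k * (F.trace / n / 2) + F.trace ^ 2 / n ^ 2 / 4 := by
      intro k
      rw [hgh, hhF]
      ring
    rw [hs, Finset.sum_congr rfl fun k _ => e k, Finset.sum_add_distrib, Finset.sum_sub_distrib,
      ← Finset.sum_div, ← Finset.sum_mul, ← trace_eq, Finset.sum_const, Finset.card_univ,
      Fintype.card_fin, nsmul_eq_mul]
    field_simp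
    ring
  have hdual : Dual F := by
    refine ⟨hFT, hFF, hFrow, fun i => ?_⟩
    have e := hFh i
    have e2 : ∀ j, F i j * h j = F i j * F j j / 2 - F i j * (F.trace / n / 2) := by
      intro j
      rw [hhF]
      ring
    rw [Finset.sum_congr rfl fun j _ => e2 j, Finset.sum_sub_distrib, ← Finset.sum_div,
      ← Finset.sum_mul, hFrow] at e
    linarith
  have hkap : kap F = (∑ i, F i i ^ 2) / 4 - (F.trace + 2) ^ 2 / (4 * n) := rfl
  have hBbb : B = bb F := by
    ext i j
    rw [hBe, bb_apply, hhF, hhF, hsF, hkap, hFe i j]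
    field_simp
    ring
  refine ⟨F, hdual, ?_, hBbb, ?_⟩
  · have h1 : (F.rank : ℝ) = n - 1 - R.rank := by
      rw [← hdual.trace_eq_rank, rank_eq_trace hRR, trace_eq, trace_eq,
        Finset.sum_congr rfl fun i _ => hFe i i, Finset.sum_sub_distrib]
      congr 1
      simp only [if_true, Finset.sum_const, Finset.card_univ, Fintype.card_fin, nsmul_eq_mul]
      field_simp
    have h2 : R.rank ≠ 0 := by
      intro h0
      have h3 : R = 0 := by
        refine eq_zero_of_trace hRT hRR ?_
        rw [← rank_eq_trace hRR, h0, Nat.cast_zero]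
      have h4 : ∀ i, h i = 0 := by
        intro i
        rw [hh]
        refine Finset.sum_eq_zero fun k _ => ?_
        rw [h3, Matrix.zero_apply, zero_mul]
      have h5 : s = 0 := by
        rw [hs]
        refine Finset.sum_eq_zero fun k _ => ?_
        rw [hgh, h4]
        ring
      have h6 := hd ⟨0, hn⟩
      rw [hBe, h4, h5, h3, Matrix.zero_apply] at h6
      linarith
    have h7 : 1 ≤ R.rank := Nat.one_le_iff_ne_zero.2 h2
    have h8 : ((F.rank + 1 + R.rank : ℕ) : ℝ) = n := by
      push_cast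
      rw [h1]
      ring
    have h9 : F.rank + 1 + R.rank = n := by exact_mod_cast h8
    omega
  · rw [← hd ⟨0, hn⟩, hBbb, bb_apply, if_pos rfl]
    ring

theorem exists_dual (hn : 0 < n) {A : Matrix (Fin n) (Fin n) ℝ} (hA : A ∈ FixC n)
    (he : EqualVariance A) :
    ∃ F : Matrix (Fin n) (Fin n) ℝ, Dual F ∧ F.rank + 1 < n ∧ A = hom F := by
  obtain ⟨h1, h2, d, hd, heq⟩ := (mem_FixC_iff hn A).1 hA
  have hT := isSymm_of_herm h1.isHermitian
  have hv : ∀ i, ∑ k, (A i k - mean (A i)) ^ 2 = d i ^ 2 := by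
    intro i
    have := gram_apply hn hT i i
    rw [heq, mul_diagonal, diagonal_mul, h2 i] at this
    rw [Finset.sum_congr rfl fun k _ => pow_two (A i k - mean (A i)), ← this]
    ring
  set t : ℝ := d ⟨0, hn⟩ with ht
  have htp : 0 < t := hd _
  have hdt : ∀ i, d i = t := by
    intro i
    have := he i ⟨0, hn⟩
    rw [hv, hv] at this
    exact (sq_eq_sq₀ (hd i).le htp.le).1 this
  have heq2 : A * Hc n * A = (t ^ 2) • A := by
    rw [heq]
    ext i j
    rw [mul_diagonal, diagonal_mul, hdt, hdt, Matrix.smul_apply, smul_eq_mul]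
    ring
  have hB : ((t ^ 2)⁻¹ • A) * Hc n * ((t ^ 2)⁻¹ • A) = (t ^ 2)⁻¹ • A := by
    rw [Matrix.smul_mul, Matrix.smul_mul, Matrix.mul_smul, heq2, smul_smul, smul_smul]
    congr 1
    field_simp
  obtain ⟨F, hF, hr, hb, hβ⟩ := exists_dual_of_eqn hn (B := (t ^ 2)⁻¹ • A)
    (by rw [transpose_smul, hT]) hB (β := (t ^ 2)⁻¹) (by positivity)
    (fun i => by rw [Matrix.smul_apply, h2 i, smul_eq_mul, mul_one])
  refine ⟨F, hF, hr, ?_⟩
  rw [hom_eq, ← hb, ← hβ, smul_smul]
  rw [inv_inv, mul_inv_cancel₀ (by positivity), one_smul]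

/-- `F` is determined by `hom F`. -/
theorem hom_inj (hn : 0 < n) {F G : Matrix (Fin n) (Fin n) ℝ} (hF : Dual F) (hG : Dual G)
    (hrF : F.rank + 1 < n) (hrG : G.rank + 1 < n) (h : hom F = hom G) : F = G := by
  have key : ∀ {F : Matrix (Fin n) (Fin n) ℝ}, Dual F → F.rank + 1 < n →
      F = Hc n - (1 + kap F) • (Hc n * hom F * Hc n) := by
    intro F hF hr
    have hk := hF.kap_pos hn hr
    have e1 : bb F = (1 + kap F) • hom F := by
      rw [hom_eq, smul_smul, mul_inv_cancel₀ hk.ne', one_smul]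
    have e2 : (1 + kap F) • (Hc n * hom F * Hc n) = Hc n * (bb F * Hc n) := by
      rw [e1, Matrix.smul_mul, Matrix.mul_smul, Matrix.mul_assoc]
    rw [e2]
    ext i j
    have hn' : (n : ℝ) ≠ 0 := by exact_mod_cast hn.ne'
    have e3 : ∑ k, (bb F * Hc n) k j
        = 1 + n * (F j j / 2) - (F.trace + 2) / 2 := by
      rw [Finset.sum_congr rfl fun k _ => hF.bb_Hc hn k j, Finset.sum_sub_distrib,
        Finset.sum_add_distrib, Finset.sum_sub_distrib, Finset.sum_ite_eq',
        if_pos (Finset.mem_univ j), Finset.sum_const, Finset.sum_const, Finset.card_univ,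
        Fintype.card_fin, nsmul_eq_mul, nsmul_eq_mul]
      have : ∑ k, F k j = 0 := by
        rw [← hF.row j]
        exact Finset.sum_congr rfl fun k _ => hF.symm' k j
      rw [this]
      field_simp
      ring
    rw [Matrix.sub_apply, Hc_mul_apply, hF.bb_Hc hn, e3, Hc_apply]
    field_simp
    ring
  have hv : ∀ {F : Matrix (Fin n) (Fin n) ℝ}, Dual F → F.rank + 1 < n →
      (hom F * Hc n * hom F) = (1 + kap F)⁻¹ • hom F := by
    intro F hF hr
    rw [hom_eq, Matrix.smul_mul, Matrix.smul_mul, Matrix.mul_smul, hF.bb_eqn hn]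
  have h1 := hv hF hrF
  have h2 := hv hG hrG
  rw [h, h2] at h1
  have hone : hom G ⟨0, hn⟩ ⟨0, hn⟩ = 1 := (hG.mem_FixC hn hrG).1.2.1 _
  have h3 := congrFun (congrFun h1 ⟨0, hn⟩) ⟨0, hn⟩
  rw [Matrix.smul_apply, Matrix.smul_apply, hone, smul_eq_mul, smul_eq_mul, mul_one, mul_one]
    at h3
  have h4 : 1 + kap G = 1 + kap F := inv_injective h3
  rw [key hF hrF, key hG hrG, h, h4]

end Pool.Agent.MPf2d8fcHom
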