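import Mathlib
import Pool.Agent.Lib.MP_f2d8fc_an_HOM.Bwd

/-!
# The fixed points with rows of equal variance in ranks `n - 1` and `n - 2`
-/

open Matrix

namespace Pool.Agent.MPf2d8fcHom

open Pool.Agent.MPf2d8fc

variable {n : ℕ}

/-- The classification. -/
theorem classification (hn : 0 < n) (A : Matrix (Fin n) (Fin n) ℝ) :
    A ∈ FixC n ∧ EqualVariance A ↔
      ∃ F : Matrix (Fin n) (Fin n) ℝ, Dual F ∧ F.rank + 1 < n ∧ A = hom F := by
  constructor
  · rintro ⟨h1, h2⟩
    exact exists_dual hn h1 h2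
  · rintro ⟨F, hF, hr, rfl⟩
    exact hF.mem_FixC hn hr

theorem dual_zero : Dual (0 : Matrix (Fin n) (Fin n) ℝ) :=
  ⟨transpose_zero, Matrix.mul_zero 0, fun i => by simp, fun i => by simp⟩

theorem kap_zero : kap (0 : Matrix (Fin n) (Fin n) ℝ) = - (1 / n) := by
  rw [kap]
  simp only [Matrix.zero_apply, Matrix.trace_zero]
  by_cases hn : (n : ℝ) = 0
  · rw [hn]; simp
  · field_simp
    norm_num

theorem hom_zero (hn : 2 ≤ n) (i j : Fin n) :
    hom (0 : Matrix (Fin n) (Fin n) ℝ) i j = if i = j then 1 else -1 / ((n : ℝ) - 1) := by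
  have h2 : (2 : ℝ) ≤ n := by exact_mod_cast hn
  have h0 : (n : ℝ) ≠ 0 := by linarith
  have h1 : (n : ℝ) - 1 ≠ 0 := by linarith
  rw [hom_apply, bb_apply, kap_zero]
  simp only [Matrix.zero_apply]
  have e : 1 + -(1 / (n : ℝ)) = (n - 1) / n := by field_simp; ring
  rw [e]
  split_ifs with h
  · field_simp
    ring
  · field_simp
    ring

/-- Rank `n - 1`. -/
theorem top_rank (hn : 2 ≤ n) (A : Matrix (Fin n) (Fin n) ℝ) :
    (A ∈ FixC n ∧ EqualVariance A ∧ A.rank + 1 = n) ↔
      ∀ i j, A i j = if i = j then 1 else -1 / ((n : ℝ) - 1) := by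
  have hn0 : 0 < n := by omega
  constructor
  · rintro ⟨h1, h2, h3⟩
    obtain ⟨F, hF, hr, rfl⟩ := exists_dual hn0 h1 h2
    have h4 := hF.rank_hom hn0 hr
    have h5 : F.rank = 0 := by omega
    have h6 : F = 0 := by
      refine eq_zero_of_trace hF.symm hF.idem ?_
      rw [hF.trace_eq_rank, h5, Nat.cast_zero]
    subst h6
    exact hom_zero hn
  · intro h
    have h1 : A = hom 0 := by
      ext i j
      rw [h, hom_zero hn]
    have hr : (0 : Matrix (Fin n) (Fin n) ℝ).rank + 1 < n := by
      rw [Matrix.rank_zero]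
      omega
    have h2 := (dual_zero (n := n)).mem_FixC hn0 hr
    have h3 := (dual_zero (n := n)).rank_hom hn0 hr
    rw [Matrix.rank_zero] at h3
    rw [h1]
    exact ⟨h2.1, h2.2, by omega⟩

/-- A symmetric idempotent matrix with trace `1` is `f fᵀ` for a unit vector `f`. -/
theorem exists_vec {F : Matrix (Fin n) (Fin n) ℝ} (hs : Fᵀ = F) (hF : F * F = F)
    (ht : F.trace = 1) :
    ∃ f : Fin n → ℝ, ∑ i, f i ^ 2 = 1 ∧ ∀ i j, F i j = f i * f j := by
  have hs' : ∀ i k, F i k = F k i := by
    intro i k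
    have := congrFun (congrFun hs k) i
    simpa using this
  have hsq : ∀ i, F i i = ∑ k, F i k ^ 2 := by
    intro i
    have : F i i = ∑ k, F i k * F k i := by rw [← mul_apply, hF]
    rw [this]
    exact Finset.sum_congr rfl fun k _ => by rw [hs' k i, pow_two]
  obtain ⟨j, hj⟩ : ∃ j, 0 < F j j := by
    by_contra hc
    push Not at hc
    have : F.trace ≤ 0 := by
      rw [trace_eq]
      exact Finset.sum_nonpos fun i _ => hc i
    linarith
  have hq := Real.mul_self_sqrt hj.le
  have hqp := Real.sqrt_pos.2 hj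
  set q := Real.sqrt (F j j) with hqdef
  have h1 : ∑ i, (F i j / q) ^ 2 = 1 := by
    have e : ∀ i, (F i j / q) ^ 2 = F j i ^ 2 / (q * q) := by
      intro i
      rw [hs' i j, div_pow, pow_two q]
    rw [Finset.sum_congr rfl fun i _ => e i, ← Finset.sum_div, ← hsq, hq, div_self hj.ne']
  have hFf : ∀ i, ∑ k, F i k * (F k j / q) = F i j / q := by
    intro i
    have e : ∀ k, F i k * (F k j / q) = F i k * F k j / q := fun k => by ring
    rw [Finset.sum_congr rfl fun k _ => e k, ← Finset.sum_div, ← mul_apply, hF]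
  refine ⟨fun i => F i j / q, h1, ?_⟩
  set f : Fin n → ℝ := fun i => F i j / q with hf
  have hG : F - vecMulVec f f = 0 := by
    refine eq_zero_of_trace ?_ ?_ ?_
    · rw [transpose_sub, hs]
      congr 1
      ext i k
      rw [transpose_apply, vecMulVec_apply, vecMulVec_apply, mul_comm]
    · have e1 : F * vecMulVec f f = vecMulVec f f := by
        ext i k
        rw [mul_apply]
        simp only [vecMulVec_apply]
        have e : ∀ l, F i l * (f l * f k) = F i l * f l * f k := fun l => by ring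
        rw [Finset.sum_congr rfl fun l _ => e l, ← Finset.sum_mul, hFf i]
      have e2 : vecMulVec f f * F = vecMulVec f f := by
        ext i k
        rw [mul_apply]
        simp only [vecMulVec_apply]
        have e : ∀ l, f i * f l * F l k = f i * (F k l * f l) := fun l => by
          rw [hs' l k]; ring
        rw [Finset.sum_congr rfl fun l _ => e l, ← Finset.mul_sum, hFf k]
      have e3 : vecMulVec f f * vecMulVec f f = vecMulVec f f := by
        ext i k
        rw [mul_apply]
        simp only [vecMulVec_apply]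
        have e : ∀ l, f i * f l * (f l * f k) = f i * f k * f l ^ 2 := fun l => by ring
        rw [Finset.sum_congr rfl fun l _ => e l, ← Finset.mul_sum, h1, mul_one]
      rw [Matrix.sub_mul, Matrix.mul_sub, Matrix.mul_sub, hF, e1, e2, e3]
      simp
    · rw [trace_sub, ht, trace_eq]
      simp only [vecMulVec_apply]
      rw [Finset.sum_congr rfl fun i _ => (pow_two (f i)).symm, h1, sub_self]
  intro i k
  have := congrFun (congrFun hG i) k
  rw [Matrix.sub_apply, vecMulVec_apply, Matrix.zero_apply, sub_eq_zero] at this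
  exact this

/-- Rank `n - 2`. -/
theorem second_rank (hn : 3 ≤ n) (A : Matrix (Fin n) (Fin n) ℝ) :
    (A ∈ FixC n ∧ EqualVariance A ∧ A.rank + 2 = n) ↔
      ∃ f : Fin n → ℝ, ∑ i, f i = 0 ∧ ∑ i, f i ^ 2 = 1 ∧ ∑ i, f i ^ 3 = 0 ∧
        ∀ i j, A i j = ((if i = j then 1 else 0) + (f i - f j) ^ 2 / 2
          + (∑ k, f k ^ 4 - 9 / n) / 4) / (1 + (∑ k, f k ^ 4 - 9 / n) / 4) := by
  have hn0 : 0 < n := by omega
  have hn' : (n : ℝ) ≠ 0 := by exact_mod_cast hn0.ne'
  have hkap : ∀ {F : Matrix (Fin n) (Fin n) ℝ} {f : Fin n → ℝ}, ∑ i, f i ^ 2 = 1 →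
      (∀ i j, F i j = f i * f j) → kap F = (∑ k, f k ^ 4 - 9 / n) / 4 := by
    intro F f h1 h2
    have e1 : F.trace = 1 := by
      rw [trace_eq, Finset.sum_congr rfl fun i _ => h2 i i, ← h1]
      exact Finset.sum_congr rfl fun i _ => by ring
    rw [kap, e1]
    have e2 : ∀ i, F i i ^ 2 = f i ^ 4 := fun i => by rw [h2]; ring
    rw [Finset.sum_congr rfl fun i _ => e2 i]
    field_simp
    ring
  have hhom : ∀ {F : Matrix (Fin n) (Fin n) ℝ} {f : Fin n → ℝ}, ∑ i, f i ^ 2 = 1 →
      (∀ i j, F i j = f i * f j) → ∀ i j, hom F i j = ((if i = j then 1 else 0)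
        + (f i - f j) ^ 2 / 2 + (∑ k, f k ^ 4 - 9 / n) / 4)
          / (1 + (∑ k, f k ^ 4 - 9 / n) / 4) := by
    intro F f h1 h2 i j
    rw [hom_apply, bb_apply, hkap h1 h2, h2, h2, h2]
    congr 1
    ring
  constructor
  · rintro ⟨h1, h2, h3⟩
    obtain ⟨F, hF, hr, rfl⟩ := exists_dual hn0 h1 h2
    have h4 := hF.rank_hom hn0 hr
    have h5 : F.rank = 1 := by omega
    obtain ⟨f, hf, hFf⟩ := exists_vec hF.symm hF.idem
      (by rw [hF.trace_eq_rank, h5, Nat.cast_one])
    obtain ⟨i, hi⟩ : ∃ i, f i ≠ 0 := by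
      by_contra hc
      push Not at hc
      rw [Finset.sum_eq_zero fun i _ => by rw [hc i]; ring] at hf
      exact zero_ne_one hf
    refine ⟨f, ?_, hf, ?_, hhom hf hFf⟩
    · have := hF.row i
      rw [Finset.sum_congr rfl fun j _ => hFf i j, ← Finset.mul_sum] at this
      exact (mul_eq_zero.1 this).resolve_left hi
    · have := hF.diag i
      have e : ∀ j, F i j * F j j = f i * f j ^ 3 := fun j => by rw [hFf, hFf]; ring
      rw [Finset.sum_congr rfl fun j _ => e j, ← Finset.mul_sum] at this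
      exact (mul_eq_zero.1 this).resolve_left hi
  · rintro ⟨f, h1, h2, h3, h4⟩
    set F : Matrix (Fin n) (Fin n) ℝ := vecMulVec f f with hFdef
    have hFf : ∀ i j, F i j = f i * f j := fun i j => vecMulVec_apply _ _ _ _
    have hF : Dual F := by
      refine ⟨?_, ?_, fun i => ?_, fun i => ?_⟩
      · ext i k
        rw [transpose_apply, hFf, hFf, mul_comm]
      · ext i k
        rw [mul_apply, hFf]
        have e : ∀ l, F i l * F l k = f i * f k * f l ^ 2 := fun l => by rw [hFf, hFf]; ring
        rw [Finset.sum_congr rfl fun l _ => e l, ← Finset.mul_sum, h2, mul_one]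
      · rw [Finset.sum_congr rfl fun j _ => hFf i j, ← Finset.mul_sum, h1, mul_zero]
      · have e : ∀ j, F i j * F j j = f i * f j ^ 3 := fun j => by rw [hFf, hFf]; ring
        rw [Finset.sum_congr rfl fun j _ => e j, ← Finset.mul_sum, h3, mul_zero]
    have h5 : F.rank = 1 := by
      have e : (F.rank : ℝ) = 1 := by
        rw [← hF.trace_eq_rank, trace_eq, Finset.sum_congr rfl fun i _ => hFf i i, ← h2]
        exact Finset.sum_congr rfl fun i _ => by ring
      exact_mod_cast e
    have hr : F.rank + 1 < n := by omega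
    have h6 : A = hom F := by
      ext i j
      rw [h4, hhom h2 hFf]
    have h7 := hF.mem_FixC hn0 hr
    have h8 := hF.rank_hom hn0 hr
    rw [h6]
    exact ⟨h7.1, h7.2, by omega⟩

/-- Projections onto spaces of vectors which are odd under a permutation of the indices. -/
theorem dual_of_odd {F : Matrix (Fin n) (Fin n) ℝ} (hs : Fᵀ = F) (hF : F * F = F)
    (σ : Equiv.Perm (Fin n)) (hσ : ∀ i j, F (σ i) j = - F i j) : Dual F := by
  have hs' : ∀ i k, F i k = F k i := by
    intro i k
    have := congrFun (congrFun hs k) i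
    simpa using this
  have h2 : ∀ i j, F i (σ j) = - F i j := by
    intro i j
    rw [hs' i (σ j), hσ, hs' i j]
  refine ⟨hs, hF, fun i => ?_, fun i => ?_⟩
  · have e := Equiv.sum_comp σ fun j => F i j
    rw [Finset.sum_congr rfl fun j _ => h2 i j, Finset.sum_neg_distrib] at e
    linarith
  · have e := Equiv.sum_comp σ fun j => F i j * F j j
    have e2 : ∀ j, F i (σ j) * F (σ j) (σ j) = - (F i j * F j j) := by
      intro j
      rw [h2, h2, hσ]
      ring
    rw [Finset.sum_congr rfl fun j _ => e2 j, Finset.sum_neg_distrib] at e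
    linarith

end Pool.Agent.MPf2d8fcHom
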