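import Mathlib
import Pool.Agent.Lib.MP_f2d8fc_an_HOM.Cons

/-!
# Infinitely many fixed points with rows of equal variance in every rank from `n / 2` to `n - 2`
-/

open Matrix

namespace Pool.Agent.MPf2d8fcHom

open Pool.Agent.MPf2d8fc

variable {n m : ℕ}

/-- The first copy of `Fin m` in `Fin n`. -/
def io (h : 2 * m ≤ n) (a : Fin m) : Fin n := ⟨a, by omega⟩

/-- The second copy of `Fin m` in `Fin n`. -/
def it (h : 2 * m ≤ n) (a : Fin m) : Fin n := ⟨a + m, by omega⟩

/-- The isometry from `ℝ ^ m` onto a space of odd vectors in `ℝ ^ n`. -/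
noncomputable def U (h : 2 * m ≤ n) : Matrix (Fin n) (Fin m) ℝ :=
  Matrix.of fun i a => ((if i = io h a then 1 else 0) - (if i = it h a then 1 else 0))
    / Real.sqrt 2

theorem io_inj (h : 2 * m ≤ n) {a b : Fin m} : io h a = io h b ↔ a = b := by
  simp [io, Fin.ext_iff]

theorem it_inj (h : 2 * m ≤ n) {a b : Fin m} : it h a = it h b ↔ a = b := by
  simp [it, Fin.ext_iff]

theorem io_ne_it (h : 2 * m ≤ n) (a b : Fin m) : io h a ≠ it h b := by
  simp only [io, it, ne_eq, Fin.ext_iff]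
  omega

theorem U_apply (h : 2 * m ≤ n) (i : Fin n) (a : Fin m) : U h i a
    = ((if i = io h a then 1 else 0) - (if i = it h a then 1 else 0)) / Real.sqrt 2 := rfl

theorem U_io (h : 2 * m ≤ n) (a b : Fin m) :
    U h (io h a) b = (if a = b then 1 else 0) / Real.sqrt 2 := by
  rw [U_apply, if_neg (io_ne_it h a b), sub_zero]
  simp only [io_inj]

theorem U_it (h : 2 * m ≤ n) (a b : Fin m) :
    U h (it h a) b = - (if a = b then 1 else 0) / Real.sqrt 2 := by
  rw [U_apply, if_neg (io_ne_it h b a).symm, zero_sub]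
  simp only [it_inj]

theorem sum_U (h : 2 * m ≤ n) (x : Fin n → ℝ) (a : Fin m) :
    ∑ i, U h i a * x i = (x (io h a) - x (it h a)) / Real.sqrt 2 := by
  have e : ∀ i, U h i a * x i = (if i = io h a then x i / Real.sqrt 2 else 0)
      - (if i = it h a then x i / Real.sqrt 2 else 0) := by
    intro i
    rw [U_apply]
    split_ifs <;> ring
  rw [Finset.sum_congr rfl fun i _ => e i, Finset.sum_sub_distrib, Finset.sum_ite_eq',
    Finset.sum_ite_eq', if_pos (Finset.mem_univ _), if_pos (Finset.mem_univ _)]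
  ring

theorem UtU (h : 2 * m ≤ n) : (U h)ᵀ * U h = 1 := by
  ext a b
  rw [mul_apply]
  simp only [transpose_apply]
  rw [sum_U, U_io, U_it, Matrix.one_apply]
  have h2 : Real.sqrt 2 * Real.sqrt 2 = 2 := Real.mul_self_sqrt (by norm_num)
  have h3 : Real.sqrt 2 ≠ 0 := by positivity
  split_ifs
  · field_simp
    nlinarith
  · simp

/-- The odd extension of a matrix. -/
noncomputable def ext (h : 2 * m ≤ n) (G : Matrix (Fin m) (Fin m) ℝ) :
    Matrix (Fin n) (Fin n) ℝ := U h * G * (U h)ᵀ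

theorem ext_io (h : 2 * m ≤ n) (G : Matrix (Fin m) (Fin m) ℝ) (a b : Fin m) :
    ext h G (io h a) (io h b) = G a b / 2 := by
  have h2 : Real.sqrt 2 * Real.sqrt 2 = 2 := Real.mul_self_sqrt (by norm_num)
  have h3 : Real.sqrt 2 ≠ 0 := by positivity
  rw [ext, mul_apply]
  have e : ∀ c, (U h * G) (io h a) c = G a c / Real.sqrt 2 := by
    intro c
    rw [mul_apply]
    have e1 : ∀ d, U h (io h a) d * G d c = if a = d then G d c / Real.sqrt 2 else 0 := by
      intro d
      rw [U_io]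
      split_ifs <;> ring
    rw [Finset.sum_congr rfl fun d _ => e1 d, Finset.sum_ite_eq, if_pos (Finset.mem_univ _)]
  have e2 : ∀ c, (U h * G) (io h a) c * (U h)ᵀ c (io h b)
      = if b = c then G a c / Real.sqrt 2 / Real.sqrt 2 else 0 := by
    intro c
    rw [e, transpose_apply, U_io]
    split_ifs <;> ring
  rw [Finset.sum_congr rfl fun c _ => e2 c, Finset.sum_ite_eq, if_pos (Finset.mem_univ _),
    div_div, h2]

theorem ext_it (h : 2 * m ≤ n) (G : Matrix (Fin m) (Fin m) ℝ) (a b : Fin m) :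
    ext h G (it h a) (it h b) = G a b / 2 := by
  have h2 : Real.sqrt 2 * Real.sqrt 2 = 2 := Real.mul_self_sqrt (by norm_num)
  have h3 : Real.sqrt 2 ≠ 0 := by positivity
  rw [ext, mul_apply]
  have e : ∀ c, (U h * G) (it h a) c = - (G a c / Real.sqrt 2) := by
    intro c
    rw [mul_apply]
    have e1 : ∀ d, U h (it h a) d * G d c = if a = d then - (G d c / Real.sqrt 2) else 0 := by
      intro d
      rw [U_it]
      split_ifs <;> ring
    rw [Finset.sum_congr rfl fun d _ => e1 d, Finset.sum_ite_eq, if_pos (Finset.mem_univ _)]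
  have e2 : ∀ c, (U h * G) (it h a) c * (U h)ᵀ c (it h b)
      = if b = c then G a c / Real.sqrt 2 / Real.sqrt 2 else 0 := by
    intro c
    rw [e, transpose_apply, U_it]
    split_ifs <;> ring
  rw [Finset.sum_congr rfl fun c _ => e2 c, Finset.sum_ite_eq, if_pos (Finset.mem_univ _),
    div_div, h2]

theorem ext_dual (h : 2 * m ≤ n) {G : Matrix (Fin m) (Fin m) ℝ} (hs : Gᵀ = G)
    (hG : G * G = G) : Dual (ext h G) := by
  have key : ∀ x : Fin n → ℝ, (∀ a, x (io h a) = x (it h a)) →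
      ∀ i, ∑ j, ext h G i j * x j = 0 := by
    intro x hx i
    have e1 : ∀ j, ext h G i j * x j = ∑ a, (U h * G) i a * (U h j a * x j) := by
      intro j
      rw [ext, mul_apply, Finset.sum_mul]
      exact Finset.sum_congr rfl fun a _ => by rw [transpose_apply]; ring
    rw [Finset.sum_congr rfl fun j _ => e1 j, Finset.sum_comm]
    refine Finset.sum_eq_zero fun a _ => ?_
    rw [← Finset.mul_sum, sum_U, hx, sub_self, zero_div, mul_zero]
  refine ⟨?_, ?_, fun i => ?_, fun i => ?_⟩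
  · rw [ext, transpose_mul, transpose_mul, transpose_transpose, hs, Matrix.mul_assoc]
  · calc ext h G * ext h G = U h * G * ((U h)ᵀ * U h) * G * (U h)ᵀ := by
          rw [ext]; simp only [Matrix.mul_assoc]
      _ = U h * (G * G) * (U h)ᵀ := by rw [UtU, Matrix.mul_one, Matrix.mul_assoc (U h) G G]
      _ = ext h G := by rw [hG, ext]
  · have := key (fun _ => 1) (fun _ => rfl) i
    simpa using this
  · refine key (fun j => ext h G j j) (fun a => ?_) i
    show ext h G (io h a) (io h a) = ext h G (it h a) (it h a)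
    rw [ext_io, ext_it]

theorem ext_trace (h : 2 * m ≤ n) (G : Matrix (Fin m) (Fin m) ℝ) :
    (ext h G).trace = G.trace := by
  rw [ext, Matrix.trace_mul_comm, ← Matrix.mul_assoc, UtU, Matrix.one_mul]

/-- The unit vector `(√t, √(1 - t), 0, ..., 0)`. -/
noncomputable def cv (hm : 2 ≤ m) (t : ℝ) (a : Fin m) : ℝ :=
  if a = ⟨0, by omega⟩ then Real.sqrt t else if a = ⟨1, by omega⟩ then Real.sqrt (1 - t) else 0

theorem cv_norm (hm : 2 ≤ m) {t : ℝ} (ht : t ∈ Set.Icc (0 : ℝ) 1) :
    ∑ a, cv hm t a ^ 2 = 1 := by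
  have h01 : (⟨1, by omega⟩ : Fin m) ≠ ⟨0, by omega⟩ := by simp
  have e : ∀ a, cv hm t a ^ 2 = (if a = ⟨0, by omega⟩ then t else 0)
      + (if a = ⟨1, by omega⟩ then 1 - t else 0) := by
    intro a
    rw [cv]
    by_cases h0 : a = ⟨0, by omega⟩
    · subst h0
      rw [if_pos rfl, if_pos rfl, if_neg h01.symm, Real.sq_sqrt ht.1, add_zero]
    · rw [if_neg h0, if_neg h0]
      by_cases h1 : a = ⟨1, by omega⟩
      · rw [if_pos h1, if_pos h1, Real.sq_sqrt (by linarith [ht.2]), zero_add]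
      · rw [if_neg h1, if_neg h1]
        norm_num
  rw [Finset.sum_congr rfl fun a _ => e a, Finset.sum_add_distrib, Finset.sum_ite_eq',
    Finset.sum_ite_eq', if_pos (Finset.mem_univ _), if_pos (Finset.mem_univ _)]
  ring

/-- The projection `1 - c cᵀ`. -/
noncomputable def gg (hm : 2 ≤ m) (t : ℝ) : Matrix (Fin m) (Fin m) ℝ :=
  1 - vecMulVec (cv hm t) (cv hm t)

theorem gg_symm (hm : 2 ≤ m) (t : ℝ) : (gg hm t)ᵀ = gg hm t := by
  rw [gg, transpose_sub, transpose_one]
  congr 1
  ext i k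
  rw [transpose_apply, vecMulVec_apply, vecMulVec_apply, mul_comm]

theorem gg_idem (hm : 2 ≤ m) {t : ℝ} (ht : t ∈ Set.Icc (0 : ℝ) 1) :
    gg hm t * gg hm t = gg hm t := by
  have e : vecMulVec (cv hm t) (cv hm t) * vecMulVec (cv hm t) (cv hm t)
      = vecMulVec (cv hm t) (cv hm t) := by
    ext i k
    rw [mul_apply]
    simp only [vecMulVec_apply]
    have e : ∀ l, cv hm t i * cv hm t l * (cv hm t l * cv hm t k)
        = cv hm t i * cv hm t k * cv hm t l ^ 2 := fun l => by ring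
    rw [Finset.sum_congr rfl fun l _ => e l, ← Finset.mul_sum, cv_norm hm ht, mul_one]
  rw [gg, Matrix.sub_mul, Matrix.one_mul, Matrix.mul_sub, Matrix.mul_one, e, sub_self, sub_zero]

theorem gg_trace (hm : 2 ≤ m) {t : ℝ} (ht : t ∈ Set.Icc (0 : ℝ) 1) :
    (gg hm t).trace = m - 1 := by
  rw [gg, trace_sub, trace_one, Fintype.card_fin, trace_eq]
  simp only [vecMulVec_apply]
  rw [Finset.sum_congr rfl fun a _ => (pow_two (cv hm t a)).symm, cv_norm hm ht]

theorem infinite_family (hm : 2 ≤ m) (hmn : 2 * m ≤ n) :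
    {A : Matrix (Fin n) (Fin n) ℝ | A ∈ FixC n ∧ EqualVariance A ∧ A.rank + m = n}.Infinite := by
  have hn0 : 0 < n := by omega
  have hD : ∀ t ∈ Set.Icc (0 : ℝ) 1, Dual (ext hmn (gg hm t)) := fun t ht =>
    ext_dual hmn (gg_symm hm t) (gg_idem hm ht)
  have hrk : ∀ t ∈ Set.Icc (0 : ℝ) 1, (ext hmn (gg hm t)).rank + 1 = m := by
    intro t ht
    have e : ((ext hmn (gg hm t)).rank : ℝ) = m - 1 := by
      rw [← (hD t ht).trace_eq_rank, ext_trace, gg_trace hm ht]
    have e2 : (((ext hmn (gg hm t)).rank + 1 : ℕ) : ℝ) = m := by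
      push_cast
      rw [e]
      ring
    exact_mod_cast e2
  refine Set.infinite_of_injOn_mapsTo (s := Set.Icc (0 : ℝ) 1)
    (f := fun t => hom (ext hmn (gg hm t))) ?_ ?_ (Set.Icc_infinite zero_lt_one)
  · intro t ht u hu htu
    have h1 := hom_inj hn0 (hD t ht) (hD u hu) (by have := hrk t ht; omega)
      (by have := hrk u hu; omega) htu
    have h2 := congrFun (congrFun h1 (io hmn ⟨0, by omega⟩)) (io hmn ⟨0, by omega⟩)
    rw [ext_io, ext_io, gg, gg, Matrix.sub_apply, Matrix.sub_apply, vecMulVec_apply,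
      vecMulVec_apply, cv, cv, if_pos rfl, if_pos rfl, Real.mul_self_sqrt ht.1,
      Real.mul_self_sqrt hu.1] at h2
    linarith
  · intro t ht
    have h1 := hrk t ht
    have hr : (ext hmn (gg hm t)).rank + 1 < n := by omega
    have h2 := (hD t ht).mem_FixC hn0 hr
    have h3 := (hD t ht).rank_hom hn0 hr
    refine ⟨h2.1, h2.2, ?_⟩
    show (hom (ext hmn (gg hm t))).rank + m = n
    omega

end Pool.Agent.MPf2d8fcHom
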